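import Pool.Agent.Lib.MP_abd978_an.H55.Poix

/-!
# Project ABD, module DENS: the density lemma (logarithmic estimate)
-/

set_option autoImplicit false

open MeasureTheory Metric Set Filter Topology ContDiff
open scoped Gradient RealInnerProductSpace

namespace Pool.Agent.Lib.MP_abd978_an.H55

open Pool.Agent.Lib.MP_abd978_an

/-! ### the functions of one variable -/

/-- `ψ(s) = (s + √(s² + 1)) / 2` -/
noncomputable def psi (s : ℝ) : ℝ := (s + √(s ^ 2 + 1)) / 2
/-- its derivative -/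
noncomputable def psi1 (s : ℝ) : ℝ := (1 + s / √(s ^ 2 + 1)) / 2

lemma sq1_pos (s : ℝ) : 0 < s ^ 2 + 1 := by positivity
lemma sqrt1_pos (s : ℝ) : 0 < √(s ^ 2 + 1) := Real.sqrt_pos.2 (sq1_pos s)
lemma abs_lt_sqrt1 (s : ℝ) : |s| < √(s ^ 2 + 1) := by
  rw [← Real.sqrt_sq_eq_abs]
  exact Real.sqrt_lt_sqrt (sq_nonneg _) (by linarith)

lemma psi_pos (s : ℝ) : 0 < psi s := by
  have := abs_lt_sqrt1 s
  have := neg_abs_le s
  unfold psi; linarith

lemma le_psi (s : ℝ) : s ≤ psi s := by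
  have := abs_lt_sqrt1 s
  have := le_abs_self s
  unfold psi; linarith

lemma psi_le_half {s : ℝ} (hs : s ≤ 0) : psi s ≤ 1 / 2 := by
  have : √(s ^ 2 + 1) ≤ 1 - s := by
    rw [Real.sqrt_le_left (by linarith)]
    nlinarith
  unfold psi; linarith

lemma psi1_pos (s : ℝ) : 0 < psi1 s := by
  have h1 := abs_lt_sqrt1 s
  have h0 := sqrt1_pos s
  have h2 : -1 < s / √(s ^ 2 + 1) := by
    rw [lt_div_iff₀ h0]
    have := neg_abs_le s
    linarith
  unfold psi1; linarith

lemma psi1_lt_one (s : ℝ) : psi1 s < 1 := by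
  have h1 := abs_lt_sqrt1 s
  have h0 := sqrt1_pos s
  have h2 : s / √(s ^ 2 + 1) < 1 := by
    rw [div_lt_one h0]
    have := le_abs_self s
    linarith
  unfold psi1; linarith

lemma hasDerivAt_sqrt1 (s : ℝ) : HasDerivAt (fun s : ℝ => √(s ^ 2 + 1)) (s / √(s ^ 2 + 1)) s := by
  have h1 : HasDerivAt (fun s : ℝ => s ^ 2 + 1) (2 * s) s := by
    have := (hasDerivAt_pow 2 s).add_const (1:ℝ)
    simpa using this
  have h2 := h1.sqrt (sq1_pos s).ne'
  convert h2 using 1
  have := (sqrt1_pos s).ne'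
  field_simp

lemma hasDerivAt_psi (s : ℝ) : HasDerivAt psi (psi1 s) s := by
  have h1 := ((hasDerivAt_id s).add (hasDerivAt_sqrt1 s)).div_const 2
  exact h1

lemma hasDerivAt_psi1 (s : ℝ) :
    HasDerivAt psi1 ((1 / ((s ^ 2 + 1) * √(s ^ 2 + 1))) / 2) s := by
  have h0 := sqrt1_pos s
  have h1 := ((hasDerivAt_id s).div (hasDerivAt_sqrt1 s) h0.ne')
  have h2 := (h1.const_add 1).div_const 2
  have e : (1 * √(s ^ 2 + 1) - id s * (s / √(s ^ 2 + 1))) / √(s ^ 2 + 1) ^ 2
      = 1 / ((s ^ 2 + 1) * √(s ^ 2 + 1)) := by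
    have h3 : √(s ^ 2 + 1) ^ 2 = s ^ 2 + 1 := Real.sq_sqrt (sq1_pos s).le
    have h4 : √(s ^ 2 + 1) * √(s ^ 2 + 1) = s ^ 2 + 1 := Real.mul_self_sqrt (sq1_pos s).le
    have h5 := sq1_pos s
    rw [h3]
    simp only [id]
    rw [div_eq_div_iff h5.ne' (mul_pos h5 h0).ne']
    field_simp
    rw [h3]
    ring
  rw [e] at h2
  exact h2

/-- the test function `Φ(t) = ψ(log k - log (t + ε))` -/
noncomputable def Phi (k ε t : ℝ) : ℝ := psi (Real.log k - Real.log (t + ε))

lemma hasDerivAt_G {k ε t : ℝ} (ht : 0 < t + ε) :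
    HasDerivAt (fun t => Real.log k - Real.log (t + ε)) (-(t + ε)⁻¹) t := by
  have h1 : HasDerivAt (fun t : ℝ => t + ε) 1 t := (hasDerivAt_id t).add_const ε
  have h2 := (h1.log ht.ne').const_sub (Real.log k)
  rw [one_div] at h2
  exact h2

lemma hasDerivAt_Phi {k ε t : ℝ} (ht : 0 < t + ε) :
    HasDerivAt (Phi k ε) (psi1 (Real.log k - Real.log (t + ε)) * (-(t + ε)⁻¹)) t :=
  (hasDerivAt_psi _).comp t (hasDerivAt_G ht)

lemma deriv_Phi {k ε t : ℝ} (ht : 0 < t + ε) :
    deriv (Phi k ε) t = psi1 (Real.log k - Real.log (t + ε)) * (-(t + ε)⁻¹) :=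
  (hasDerivAt_Phi ht).deriv

lemma abs_deriv_Phi {k ε t : ℝ} (ht : 0 < t + ε) : |deriv (Phi k ε) t| ≤ (t + ε)⁻¹ := by
  rw [deriv_Phi ht, abs_mul, abs_neg, abs_of_pos (psi1_pos _), abs_of_pos (inv_pos.2 ht)]
  have := psi1_lt_one (Real.log k - Real.log (t + ε))
  have h2 := (inv_pos.2 ht).le
  nlinarith

lemma deriv2_Phi {k ε t : ℝ} (ht : 0 < t + ε) : 0 ≤ deriv (deriv (Phi k ε)) t := by
  have e : deriv (Phi k ε) =ᶠ[𝓝 t]
      fun t => psi1 (Real.log k - Real.log (t + ε)) * (-(t + ε)⁻¹) := by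
    have : Ioi (-ε) ∈ 𝓝 t := isOpen_Ioi.mem_nhds (by rw [mem_Ioi]; linarith)
    filter_upwards [this] with s hs
    rw [mem_Ioi] at hs
    exact deriv_Phi (by linarith)
  rw [e.deriv_eq]
  have h1 : HasDerivAt (fun t : ℝ => t + ε) 1 t := (hasDerivAt_id t).add_const ε
  have h2 : HasDerivAt (fun t : ℝ => -(t + ε)⁻¹) (1 / (t + ε) ^ 2) t := by
    have h3 : HasDerivAt (fun t : ℝ => -(t + ε)⁻¹) (-(-1 / (t + ε) ^ 2)) t :=
      (h1.inv ht.ne').neg
    rwa [neg_div, neg_neg] at h3
  have h3 := ((hasDerivAt_psi1 (Real.log k - Real.log (t + ε))).comp t (hasDerivAt_G (k := k) ht))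
  have h4 := h3.mul h2
  have h5 := h4.deriv
  have h6 : deriv (fun t => psi1 (Real.log k - Real.log (t + ε)) * (-(t + ε)⁻¹)) t =
      1 / (((Real.log k - Real.log (t + ε)) ^ 2 + 1) *
        √((Real.log k - Real.log (t + ε)) ^ 2 + 1)) / 2 * -(t + ε)⁻¹ * -(t + ε)⁻¹
      + psi1 (Real.log k - Real.log (t + ε)) * (1 / (t + ε) ^ 2) := h5
  rw [h6]
  have p1 := psi1_pos (Real.log k - Real.log (t + ε))
  have p2 := sqrt1_pos (Real.log k - Real.log (t + ε))
  have p3 := inv_pos.2 ht
  have e2 : ∀ A : ℝ, A / 2 * -(t + ε)⁻¹ * -(t + ε)⁻¹ = A / 2 * ((t + ε)⁻¹ * (t + ε)⁻¹) := by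
    intro A; ring
  rw [e2]
  positivity

lemma smooth_Phi (k ε : ℝ) : ContDiffOn ℝ ∞ (Phi k ε) (Ioi (-ε)) := by
  have h1 : ContDiffOn ℝ ∞ (fun t : ℝ => Real.log k - Real.log (t + ε)) (Ioi (-ε)) := by
    refine contDiffOn_const.sub ?_
    refine ContDiffOn.log (contDiffOn_id.add contDiffOn_const) fun t ht => ?_
    rw [mem_Ioi] at ht
    exact (show (0:ℝ) < t + ε by linarith).ne'
  have h2 : ContDiff ℝ ∞ psi := by
    have h3 : ContDiff ℝ ∞ fun s : ℝ => √(s ^ 2 + 1) :=
      ContDiff.sqrt ((contDiff_id.pow 2).add contDiff_const) fun s => (sq1_pos s).ne'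
    exact (contDiff_id.add h3).div_const 2
  exact h2.comp_contDiffOn h1

lemma smoothNear_Phi {k ε d : ℝ} (hε : 0 < ε) : SmoothNear (Phi k ε) 0 d :=
  ⟨Ioi (-ε), isOpen_Ioi, fun t ht => by rw [mem_Ioi]; linarith [ht.1], smooth_Phi k ε⟩

lemma conv_Phi {k ε d : ℝ} (hε : 0 < ε) : Conv (Phi k ε) 0 d where
  smooth := smoothNear_Phi hε
  pos t _ := psi_pos _
  der t ht := by
    have h : 0 < t + ε := by linarith [ht.1]
    rw [deriv_Phi h]
    have := psi1_pos (Real.log k - Real.log (t + ε))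
    have h2 := inv_pos.2 h
    have : psi1 (Real.log k - Real.log (t + ε)) * -(t + ε)⁻¹ < 0 := by
      rw [mul_neg, neg_lt_zero]
      positivity
    exact this.ne
  cvx t ht := deriv2_Phi (by linarith [ht.1])

/-- `Θ(t) = -(t + ε)^(1-p)` -/
noncomputable def Th (p ε t : ℝ) : ℝ := -(t + ε) ^ (1 - p)

lemma deriv_Th {p ε t : ℝ} (ht : 0 < t + ε) : deriv (Th p ε) t = (p - 1) * (t + ε) ^ (-p) := by
  have h1 : HasDerivAt (fun t : ℝ => t + ε) 1 t := (hasDerivAt_id t).add_const ε
  have h2 := (h1.rpow_const (p := 1 - p) (Or.inl ht.ne')).neg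
  have h3 : deriv (Th p ε) t = _ := h2.deriv
  rw [h3]
  have : 1 - p - 1 = -p := by ring
  rw [this]
  ring

lemma smoothNear_Th {p ε d : ℝ} (hε : 0 < ε) : SmoothNear (Th p ε) 0 d := by
  refine ⟨Ioi (-ε), isOpen_Ioi, fun t ht => by rw [mem_Ioi]; linarith [ht.1], ?_⟩
  have h1 : ContDiffOn ℝ ∞ (fun t : ℝ => (t + ε) ^ (1 - p)) (Ioi (-ε)) := by
    intro t ht
    rw [mem_Ioi] at ht
    have h2 : ContDiffAt ℝ ∞ (fun t : ℝ => (t + ε) ^ (1 - p)) t :=
      (contDiffAt_id.add contDiffAt_const).rpow_const_of_ne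
        (show (0:ℝ) < t + ε by linarith).ne'
    exact h2.contDiffWithinAt
  exact h1.neg

/-! ### the logarithmic estimate -/

theorem ball_subset_ball_D {n : ℕ} {D : Set (E n)} {z : E n} {r s : ℝ} (hs : s ≤ 4 * r)
    (h : closedBall z (4 * r) ⊆ D) : closedBall z s ⊆ D :=
  (closedBall_subset_closedBall hs).trans h

/-- the pointwise function `(‖v‖ / (u + ε))^p` is integrable on `D` -/
theorem integrable_log {n : ℕ} {p : ℝ} {μ : Measure (E n)} {D : Set (E n)} {u : E n → ℝ}
    {v : E n → E n} {d ε : ℝ} (hp : 1 < p) (hs : IsSob μ p D u v) (hu : ∀ x, u x ∈ Icc 0 d)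
    (hε : 0 < ε) : Integrable (fun x => ((u x + ε)⁻¹ * ‖v x‖) ^ p) (μ.restrict D) := by
  obtain ⟨h1, h2, -⟩ := hs
  have h3 : Integrable (fun x => ‖v x‖ ^ p) (μ.restrict D) := by
    have := h2.integrable_norm_rpow (ofReal_ne_zero' hp) ENNReal.ofReal_ne_top
    rwa [toReal_ofReal' hp] at this
  have hm : AEStronglyMeasurable (fun x => ((u x + ε)⁻¹ * ‖v x‖) ^ p) (μ.restrict D) := by
    have m1 : AEMeasurable u (μ.restrict D) := h1.1.aemeasurable
    have m2 : AEMeasurable (fun x => ‖v x‖) (μ.restrict D) := h2.1.norm.aemeasurable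
    exact (((m1.add_const ε).inv.mul m2).pow_const p).aestronglyMeasurable
  refine (h3.const_mul ((ε⁻¹) ^ p)).mono' hm (Eventually.of_forall fun x => ?_)
  have hx := (hu x).1
  have a1 : 0 < u x + ε := by linarith
  have a2 : (u x + ε)⁻¹ ≤ ε⁻¹ := inv_anti₀ hε (by linarith)
  have a3 : 0 ≤ (u x + ε)⁻¹ * ‖v x‖ := by positivity
  rw [Real.norm_eq_abs, abs_of_nonneg (Real.rpow_nonneg a3 _), ← Real.mul_rpow (by positivity)
    (norm_nonneg _)]
  exact Real.rpow_le_rpow a3 (mul_le_mul_of_nonneg_right a2 (norm_nonneg _)) (by linarith)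

/-- LOG -/
theorem log_est (hA : CaccStatement) (hK : CutStatement) : ∀ (n : ℕ) (p : ℝ) (μ : Measure (E n))
    (a : E n → E n → E n) (α β : ℝ), Op p μ a α β → ∃ A : ℝ, 0 < A ∧ ∀ (D : Set (E n))
    (u : E n → ℝ) (v : E n → E n) (d ε : ℝ) (z : E n) (r : ℝ), BSol μ p a D u v 0 d →
    0 < r → closedBall z (4 * r) ⊆ D → 0 < ε →
    ⨍ x in ball z (2 * r), ((u x + ε)⁻¹ * ‖v x‖) ^ p ∂μ ≤ A * r ^ (-p) := by
  intro n p μ a α β hop
  have hp := hop.hp
  have hlf := hop.lf
  obtain ⟨Ca, Ca0, hCa⟩ := hA n p μ a α β hop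
  obtain ⟨Cc, Cc0, hCc⟩ := hK n
  obtain ⟨Cd, Cd1, hCd⟩ := hop.dbl
  have Cd0 : 0 < Cd := by linarith
  refine ⟨(p - 1)⁻¹ * Ca * (p - 1) ^ (1 - p) * Cc ^ p * Cd, by
    have : 0 < p - 1 := by linarith
    positivity, ?_⟩
  intro D u v d ε z r hB hr hD hε
  have hp1 : 0 < p - 1 := by linarith
  obtain ⟨η, hη1, hη2, hη3, hη4, hη5⟩ := hCc z (2 * r) (3 * r) (by linarith) (by linarith)
  have hηD : Test D η := ⟨hη1.1, hη1.2.1, hη4.trans (ball_subset_ball_D (by linarith) hD)⟩
  have hu := hB.mem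
  have upos : ∀ x, 0 < u x + ε := fun x => by linarith [(hu x).1]
  have main := hCa D u v 0 d (Th p ε) η hB (smoothNear_Th hε) (fun t ht => by
    have h : 0 < t + ε := by linarith [ht.1]
    rw [deriv_Th h]
    positivity) hηD hη2
  -- left side
  set B := ball z (2 * r) with hBdef
  have hBD : B ⊆ D := ball_subset_closedBall.trans (ball_subset_ball_D (by linarith) hD)
  have int0 := integrable_log hp hB.sob hu hε
  have int1 : Integrable (fun x => ((u x + ε)⁻¹ * ‖v x‖) ^ p) (μ.restrict B) :=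
    int0.mono_measure (Measure.restrict_mono hBD le_rfl)
  have ptw : ∀ x, deriv (Th p ε) (u x) * ‖v x‖ ^ p
      = (p - 1) * ((u x + ε)⁻¹ * ‖v x‖) ^ p := by
    intro x
    rw [deriv_Th (upos x), Real.mul_rpow (inv_nonneg.2 (upos x).le) (norm_nonneg _),
      Real.inv_rpow (upos x).le, ← Real.rpow_neg (upos x).le]
    ring
  have left : (p - 1) * ∫ x in B, ((u x + ε)⁻¹ * ‖v x‖) ^ p ∂μ ≤
      ∫ x, η x ^ ⌈p⌉₊ * (deriv (Th p ε) (u x) * ‖v x‖ ^ p) ∂μ := by
    have hnn : ∀ x, 0 ≤ η x ^ ⌈p⌉₊ * (deriv (Th p ε) (u x) * ‖v x‖ ^ p) := by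
      intro x
      rw [ptw]
      have := (hη2 x).1
      have a3 : 0 ≤ (u x + ε)⁻¹ * ‖v x‖ := by
        have := upos x
        positivity
      have := Real.rpow_nonneg a3 p
      positivity
    have hint : Integrable (fun x => η x ^ ⌈p⌉₊ * (deriv (Th p ε) (u x) * ‖v x‖ ^ p)) μ := by
      have h1 : Integrable (fun x => η x ^ ⌈p⌉₊ * (deriv (Th p ε) (u x) * ‖v x‖ ^ p))
          (μ.restrict D) := by
        have h2 : Integrable (fun x => η x ^ ⌈p⌉₊ * ((p - 1) * ((u x + ε)⁻¹ * ‖v x‖) ^ p))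
            (μ.restrict D) := by
          refine (int0.const_mul (p - 1)).bdd_mul (c := 1)
            ((hη1.1.continuous.pow _).aestronglyMeasurable) (Eventually.of_forall fun x => ?_)
          rw [Real.norm_eq_abs, abs_of_nonneg (pow_nonneg (hη2 x).1 _)]
          exact pow_le_one₀ (hη2 x).1 (hη2 x).2
        refine h2.congr (Eventually.of_forall fun x => ?_)
        simp only [ptw]
      refine (integrableOn_iff_integrable_of_support_subset ?_).1 h1
      intro x hx
      by_contra hcon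
      have hx0 : η x = 0 := by
        by_contra h0
        exact hcon (hηD.2.2 (subset_tsupport _ h0))
      rw [Function.mem_support] at hx
      apply hx
      have : ⌈p⌉₊ ≠ 0 := by
        rw [ne_eq, Nat.ceil_eq_zero]
        linarith
      simp [hx0, this]
    have h1 : ∫ x in B, η x ^ ⌈p⌉₊ * (deriv (Th p ε) (u x) * ‖v x‖ ^ p) ∂μ ≤
        ∫ x, η x ^ ⌈p⌉₊ * (deriv (Th p ε) (u x) * ‖v x‖ ^ p) ∂μ :=
      setIntegral_le_integral hint (Eventually.of_forall hnn)
    refine le_trans (le_of_eq ?_) h1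
    rw [← integral_const_mul]
    refine setIntegral_congr_fun measurableSet_ball fun x hx => ?_
    show (p - 1) * ((u x + ε)⁻¹ * ‖v x‖) ^ p
      = η x ^ ⌈p⌉₊ * (deriv (Th p ε) (u x) * ‖v x‖ ^ p)
    rw [hη3 x (ball_subset_closedBall hx), one_pow, one_mul, ptw]
  -- right side
  have right : ∫ x, |Th p ε (u x)| ^ p * deriv (Th p ε) (u x) ^ (1 - p) * ‖∇ η x‖ ^ p ∂μ ≤
      (p - 1) ^ (1 - p) * ((Cc / r) ^ p * (Cd * μ.real B)) := by
    have e : ∀ x, |Th p ε (u x)| ^ p * deriv (Th p ε) (u x) ^ (1 - p) * ‖∇ η x‖ ^ p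
        = (p - 1) ^ (1 - p) * ‖∇ η x‖ ^ p := by
      intro x
      have hx := upos x
      rw [deriv_Th hx]
      unfold Th
      rw [abs_neg, abs_of_nonneg (Real.rpow_nonneg hx.le _), ← Real.rpow_mul hx.le,
        Real.mul_rpow hp1.le (Real.rpow_nonneg hx.le _), ← Real.rpow_mul hx.le]
      have : (u x + ε) ^ ((1 - p) * p) * (u x + ε) ^ (-p * (1 - p)) = 1 := by
        rw [← Real.rpow_add hx]
        rw [show (1 - p) * p + -p * (1 - p) = 0 by ring, Real.rpow_zero]
      calc (u x + ε) ^ ((1 - p) * p) * ((p - 1) ^ (1 - p) * (u x + ε) ^ (-p * (1 - p)))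
            * ‖∇ η x‖ ^ p
          = ((u x + ε) ^ ((1 - p) * p) * (u x + ε) ^ (-p * (1 - p)))
            * ((p - 1) ^ (1 - p) * ‖∇ η x‖ ^ p) := by ring
        _ = _ := by rw [this, one_mul]
    rw [integral_congr_ae (Eventually.of_forall e), integral_const_mul]
    refine mul_le_mul_of_nonneg_left ?_ (Real.rpow_nonneg hp1.le _)
    have hfin4 : μ (closedBall z (3 * r)) ≠ ⊤ :=
      (isCompact_closedBall z (3 * r)).measure_lt_top.ne
    have h2 : ∫ x, ‖∇ η x‖ ^ p ∂μ ≤ ∫ x, (closedBall z (3 * r)).indicator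
        (fun _ => (Cc / r) ^ p) x ∂μ := by
      refine integral_mono_of_nonneg (Eventually.of_forall fun x =>
        Real.rpow_nonneg (norm_nonneg _) _) ?_ (Eventually.of_forall fun x => ?_)
      · exact (integrable_indicator_iff measurableSet_closedBall).2
          (integrableOn_const hfin4)
      · by_cases hx : x ∈ closedBall z (3 * r)
        · rw [indicator_of_mem hx]
          refine Real.rpow_le_rpow (norm_nonneg _) ?_ (by linarith)
          have := hη5 x
          rwa [show 3 * r - 2 * r = r by ring] at this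
        · rw [indicator_of_notMem hx]
          show ‖∇ η x‖ ^ p ≤ 0
          rw [grad_eq_zero_of_notMem (fun h => hx (hη4 h)), norm_zero,
            Real.zero_rpow (by linarith)]
    refine h2.trans ?_
    rw [integral_indicator_const _ measurableSet_closedBall, smul_eq_mul, mul_comm]
    refine mul_le_mul_of_nonneg_left ?_ (by positivity)
    have h3 : μ.real (closedBall z (3 * r)) ≤ μ.real (ball z (2 * (2 * r))) :=
      measureReal_mono (closedBall_subset_ball (by linarith))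
        (measure_ball_ne_top' hlf z _)
    exact h3.trans (hCd z (2 * r) (by linarith))
  have mB : 0 < μ.real B := hop.pos z (2 * r) (by linarith)
  have tot : (p - 1) * ∫ x in B, ((u x + ε)⁻¹ * ‖v x‖) ^ p ∂μ ≤
      Ca * ((p - 1) ^ (1 - p) * ((Cc / r) ^ p * (Cd * μ.real B))) :=
    left.trans (main.trans (mul_le_mul_of_nonneg_left right Ca0.le))
  rw [setAverage_eq, smul_eq_mul, inv_mul_le_iff₀ mB]
  have e1 : (Cc / r) ^ p = Cc ^ p * r ^ (-p) := by
    rw [Real.div_rpow Cc0.le hr.le, Real.rpow_neg hr.le]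
    rfl
  rw [e1] at tot
  have e2 := mul_le_mul_of_nonneg_left tot (inv_pos.2 hp1).le
  rw [← mul_assoc, inv_mul_cancel₀ hp1.ne', one_mul] at e2
  refine e2.trans (le_of_eq ?_)
  ring

/-- Module DENS -/
theorem dens (hA : CaccStatement) (hK : CutStatement) (hP : PoixStatement)
    (hM : Mos2Statement) : DensStatement := by
  intro n p μ a α β hop θ hθ
  have hp := hop.hp
  have hlf := hop.lf
  obtain ⟨A, A0, hLog⟩ := log_est hA hK n p μ a α β hop
  obtain ⟨Cp, Cp0, hPoi⟩ := hP n p μ hop.toGeo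
  obtain ⟨Cm, Cm0, hMos⟩ := hM n p μ a α β hop
  have hA1 : 0 < A ^ (1 / p) := Real.rpow_pos_of_pos A0 _
  set C1 := 2 * Cp * A ^ (1 / p) with hC1
  have C10 : 0 < C1 := by positivity
  set C3 := Cm * (1 / 2 + C1 / θ) with hC3
  have C30 : 0 < C3 := by positivity
  refine ⟨Real.exp (-C3), Real.exp_pos _, Real.exp_le_one_iff.2 (by linarith), ?_⟩
  intro D u v d k z r hB hr hD hk hdens
  have hu := hB.mem
  set B := ball z (2 * r) with hBdef
  have h2r : 0 < 2 * r := by linarith
  have mB : 0 < μ.real B := hop.pos z (2 * r) h2r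
  have hBfin : μ B ≠ ⊤ := measure_ball_ne_top' hlf z _
  have hfin : IsFiniteMeasure (μ.restrict B) := ⟨by
    rw [Measure.restrict_apply_univ]; exact hBfin.lt_top⟩
  have hcB : closedBall z (2 * r) ⊆ D := ball_subset_ball_D (by linarith) hD
  have hBD : B ⊆ D := ball_subset_closedBall.trans hcB
  -- the estimate for every `ε`
  have key : ∀ ε : ℝ, 0 < ε → ∀ᵐ x ∂(μ.restrict (ball z r)), Real.exp (-C3) * k ≤ u x + ε := by
    intro ε hε
    have upos : ∀ x, 0 < u x + ε := fun x => by linarith [(hu x).1]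
    set W : E n → ℝ := fun x => Phi k ε (u x) with hW
    set c := ⨍ x in B, W x ∂μ with hc
    -- bound of the oscillation
    have int0 := integrable_log hp hB.sob hu hε
    have int1 : Integrable (fun x => ((u x + ε)⁻¹ * ‖v x‖) ^ p) (μ.restrict B) :=
      int0.mono_measure (Measure.restrict_mono hBD le_rfl)
    have osc : ⨍ x in B, |W x - c| ∂μ ≤ C1 := by
      have h1 := hPoi D u v 0 d (Phi k ε) z (2 * r) hB.isOpen hB.sob hu (smoothNear_Phi hε) h2r hcB
      have h2 : ⨍ x in B, (|deriv (Phi k ε) (u x)| * ‖v x‖) ^ p ∂μ ≤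
          ⨍ x in B, ((u x + ε)⁻¹ * ‖v x‖) ^ p ∂μ := by
        rw [setAverage_eq, setAverage_eq, smul_eq_mul, smul_eq_mul]
        refine mul_le_mul_of_nonneg_left ?_ (inv_pos.2 mB).le
        refine integral_mono_of_nonneg (Eventually.of_forall fun x =>
          Real.rpow_nonneg (by positivity) _) int1 (Eventually.of_forall fun x => ?_)
        exact Real.rpow_le_rpow (by positivity)
          (mul_le_mul_of_nonneg_right (abs_deriv_Phi (upos x)) (norm_nonneg _)) (by linarith)
      have h3 := hLog D u v d ε z r hB hr hD hε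
      have h4 : (⨍ x in B, (|deriv (Phi k ε) (u x)| * ‖v x‖) ^ p ∂μ) ^ (1 / p)
          ≤ A ^ (1 / p) * r⁻¹ := by
        have h5 : 0 ≤ ⨍ x in B, (|deriv (Phi k ε) (u x)| * ‖v x‖) ^ p ∂μ := by
          rw [setAverage_eq, smul_eq_mul]
          exact mul_nonneg (inv_pos.2 mB).le (integral_nonneg fun x =>
            Real.rpow_nonneg (by positivity) _)
        calc _ ≤ (A * r ^ (-p)) ^ (1 / p) :=
              Real.rpow_le_rpow h5 (h2.trans h3) (by positivity)
          _ = A ^ (1 / p) * r⁻¹ := by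
              rw [Real.mul_rpow A0.le (Real.rpow_nonneg hr.le _), ← Real.rpow_mul hr.le,
                show -p * (1 / p) = -1 by field_simp, Real.rpow_neg_one]
      calc ⨍ x in B, |W x - c| ∂μ ≤ Cp * (2 * r) *
            (⨍ x in B, (|deriv (Phi k ε) (u x)| * ‖v x‖) ^ p ∂μ) ^ (1 / p) := h1
        _ ≤ Cp * (2 * r) * (A ^ (1 / p) * r⁻¹) :=
            mul_le_mul_of_nonneg_left h4 (by positivity)
        _ = C1 := by rw [hC1]; field_simp
    -- bound of `c`
    have hWint : Integrable W (μ.restrict B) := by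
      have hm : AEStronglyMeasurable W (μ.restrict B) := by
        have m1 : AEMeasurable u (μ.restrict B) :=
          (hB.sob.1.1.aemeasurable).mono_measure (Measure.restrict_mono hBD le_rfl)
        have m2 : Measurable (Phi k ε) := by
          have m3 : Measurable psi := by
            have : Continuous psi := continuous_iff_continuousAt.2 fun s =>
              (hasDerivAt_psi s).continuousAt
            exact this.measurable
          exact m3.comp (measurable_const.sub
            (Real.measurable_log.comp (measurable_id.add_const ε)))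
        exact (m2.comp_aemeasurable m1).aestronglyMeasurable
      -- `W` is bounded
      have hcont : ContinuousOn (Phi k ε) (Icc 0 d) := by
        refine ((smooth_Phi k ε).continuousOn).mono fun t ht => ?_
        rw [mem_Ioi]; linarith [ht.1]
      obtain ⟨K, hK'⟩ := isCompact_Icc.exists_bound_of_continuousOn hcont
      exact Integrable.of_bound hm K (Eventually.of_forall fun x => hK' _ (hu x))
    have hcb : c ≤ 1 / 2 + C1 / θ := by
      by_contra hcon
      rw [not_le] at hcon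
      have hpos : 0 < c - 1 / 2 := by
        have : 0 < C1 / θ := by positivity
        linarith
      have ch := mul_meas_ge_le_integral_of_nonneg (μ := μ.restrict B)
        (f := fun x => |W x - c|) (Eventually.of_forall fun x => abs_nonneg _)
        ((hWint.sub (integrable_const c)).abs) (c - 1 / 2)
      have hsub : {x | x ∈ ball z (2 * r) ∧ k ≤ u x} ⊆ {x | c - 1 / 2 ≤ |W x - c|} ∩ B := by
        rintro x ⟨hx1, hx2⟩
        refine ⟨?_, hx1⟩
        have h1 : W x ≤ 1 / 2 := by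
          refine psi_le_half ?_
          have : Real.log k ≤ Real.log (u x + ε) := Real.log_le_log hk (by linarith)
          linarith
        show c - 1 / 2 ≤ |W x - c|
        rw [abs_sub_comm]
        exact le_trans (by linarith) (le_abs_self _)
      have h3 : μ.real {x | x ∈ ball z (2 * r) ∧ k ≤ u x} ≤
          (μ.restrict B).real {x | c - 1 / 2 ≤ |W x - c|} := by
        rw [measureReal_def, measureReal_def, Measure.restrict_apply' measurableSet_ball]
        refine ENNReal.toReal_mono ?_ (measure_mono hsub)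
        exact ne_top_of_le_ne_top hBfin (measure_mono inter_subset_right)
      have h4 : (c - 1 / 2) * (θ * μ.real B) ≤ ∫ x in B, |W x - c| ∂μ :=
        (mul_le_mul_of_nonneg_left (hdens.trans h3) hpos.le).trans ch
      have h5 : ∫ x in B, |W x - c| ∂μ ≤ C1 * μ.real B := by
        have := osc
        rw [setAverage_eq, smul_eq_mul, inv_mul_le_iff₀ mB] at this
        linarith
      have h6 : (c - 1 / 2) * θ ≤ C1 := by
        have : (c - 1 / 2) * θ * μ.real B ≤ C1 * μ.real B := by linarith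
        exact le_of_mul_le_mul_right this mB
      have h7 : C1 / θ * θ = C1 := div_mul_cancel₀ _ hθ.ne'
      nlinarith
    -- sup bound
    have hsup := hMos D u v 0 d (Phi k ε) z (2 * r) hB (conv_Phi hε) h2r hcB
    rw [show 2 * r / 2 = r by ring] at hsup
    filter_upwards [hsup] with x hx
    have h1 : Phi k ε (u x) ≤ C3 := by
      refine hx.trans ?_
      rw [hC3]
      exact mul_le_mul_of_nonneg_left hcb Cm0.le
    have h2 : Real.log k - Real.log (u x + ε) ≤ C3 := (le_psi _).trans h1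
    have h3 : Real.log (Real.exp (-C3) * k) ≤ Real.log (u x + ε) := by
      rw [Real.log_mul (Real.exp_pos _).ne' hk.ne', Real.log_exp]
      linarith
    exact (Real.log_le_log_iff (by positivity) (upos x)).1 h3
  have hall : ∀ᵐ x ∂(μ.restrict (ball z r)), ∀ j : ℕ,
      Real.exp (-C3) * k ≤ u x + 1 / ((j : ℝ) + 1) :=
    ae_all_iff.2 fun j => key _ (by positivity)
  filter_upwards [hall] with x hx
  have ht : Tendsto (fun j : ℕ => u x + 1 / ((j : ℝ) + 1)) atTop (𝓝 (u x + 0)) :=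
    tendsto_const_nhds.add tendsto_one_div_add_atTop_nhds_zero_nat
  rw [add_zero] at ht
  exact ge_of_tendsto' ht hx

end Pool.Agent.Lib.MP_abd978_an.H55
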