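import Pool.Agent.Lib.MP_abd978_an.Weak

/-!
# Project ABD, module POIX: the Poincaré inequality for `Θ(u)`
-/

set_option autoImplicit false

open MeasureTheory Metric Set Filter Topology ContDiff
open scoped Gradient RealInnerProductSpace

namespace Pool.Agent.Lib.MP_abd978_an.H55

open Pool.Agent.Lib.MP_abd978_an

theorem ofReal_ne_zero' {p : ℝ} (hp : 1 < p) : ENNReal.ofReal p ≠ 0 := by
  have := one_le_ofReal hp
  intro h0
  rw [h0] at this
  simp at this

theorem toReal_ofReal' {p : ℝ} (hp : 1 < p) : (ENNReal.ofReal p).toReal = p :=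
  ENNReal.toReal_ofReal (by linarith)

/-- norm convergence in `L^p` gives convergence of `∫ ‖·‖^p` -/
theorem tendsto_int_pow {α F : Type} [MeasurableSpace α] [NormedAddCommGroup F]
    {ν : Measure α} {p : ℝ} (hp : 1 < p) {G : ℕ → α → F} {g : α → F}
    (hG : ∀ i, MemLp (G i) (ENNReal.ofReal p) ν) (hg : MemLp g (ENNReal.ofReal p) ν)
    (hl : Tendsto (fun i => eLpNorm (fun x => G i x - g x) (ENNReal.ofReal p) ν) atTop (𝓝 0)) :
    Tendsto (fun i => ∫ x, ‖G i x‖ ^ p ∂ν) atTop (𝓝 (∫ x, ‖g x‖ ^ p ∂ν)) := by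
  have : Fact (1 ≤ ENNReal.ofReal p) := ⟨one_le_ofReal hp⟩
  have h1 := ((Lp.tendsto_Lp_iff_tendsto_eLpNorm'' G hG g hg).2 hl).norm
  have key : ∀ (f : α → F) (hf : MemLp f (ENNReal.ofReal p) ν),
      ‖hf.toLp f‖ ^ p = ∫ x, ‖f x‖ ^ p ∂ν := by
    intro f hf
    have h0 : 0 ≤ ∫ x, ‖f x‖ ^ p ∂ν :=
      integral_nonneg fun x => Real.rpow_nonneg (norm_nonneg _) _
    rw [Lp.norm_toLp, hf.eLpNorm_eq_integral_rpow_norm (ofReal_ne_zero' hp)
      ENNReal.ofReal_ne_top, toReal_ofReal' hp,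
      ENNReal.toReal_ofReal (Real.rpow_nonneg h0 _), ← Real.rpow_mul h0,
      inv_mul_cancel₀ (by linarith : p ≠ 0), Real.rpow_one]
  have h2 := ((Real.continuous_rpow_const (q := p) (by linarith)).tendsto _).comp h1
  rw [key g hg] at h2
  refine h2.congr fun i => ?_
  exact key _ _

theorem avg_osc_le {α : Type} [MeasurableSpace α] {ν : Measure α} [IsFiniteMeasure ν]
    {f g : α → ℝ} (hf : Integrable f ν) (hg : Integrable g ν) :
    ⨍ x, |f x - ⨍ y, f y ∂ν| ∂ν ≤ ⨍ x, |g x - ⨍ y, g y ∂ν| ∂ν + 2 * ⨍ x, |f x - g x| ∂ν := by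
  rcases eq_or_ne (ν univ) 0 with h0 | h0
  · have : ν = 0 := Measure.measure_univ_eq_zero.1 h0
    subst this
    simp
  have hm : 0 < ν.real univ := ENNReal.toReal_pos h0 (measure_ne_top _ _)
  set m := ν.real univ with hmdef
  set F := ⨍ y, f y ∂ν with hF
  set G := ⨍ y, g y ∂ν with hG
  have i1 : Integrable (fun x => |f x - F|) ν := (hf.sub (integrable_const F)).abs
  have i2 : Integrable (fun x => |g x - G|) ν := (hg.sub (integrable_const G)).abs
  have i3 : Integrable (fun x => |f x - g x|) ν := (hf.sub hg).abs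
  have e1 : |G - F| * m ≤ ∫ x, |f x - g x| ∂ν := by
    have : (G - F) * m = - ∫ x, (f x - g x) ∂ν := by
      rw [hF, hG, average_eq, average_eq, integral_sub hf hg, smul_eq_mul, smul_eq_mul]
      rw [← hmdef]
      field_simp
      ring
    have h2 : |G - F| * m = |∫ x, (f x - g x) ∂ν| := by
      rw [← abs_neg (∫ x, (f x - g x) ∂ν), ← this, abs_mul, abs_of_pos hm]
    rw [h2]
    exact abs_integral_le_integral_abs
  have e2 : ∫ x, |f x - F| ∂ν ≤ (∫ x, |g x - G| ∂ν) + (∫ x, |f x - g x| ∂ν) + |G - F| * m := by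
    have h3 : ∫ x, |f x - F| ∂ν ≤ ∫ x, (|g x - G| + |f x - g x| + |G - F|) ∂ν := by
      refine integral_mono i1 ((i2.add i3).add (integrable_const _)) fun x => ?_
      have e : f x - F = (g x - G) + (f x - g x) + (G - F) := by ring
      show |f x - F| ≤ |g x - G| + |f x - g x| + |G - F|
      rw [e]
      exact (abs_add_le _ _).trans (add_le_add (abs_add_le _ _) le_rfl)
    have h4 : ∫ x, (|g x - G| + |f x - g x| + |G - F|) ∂ν
        = (∫ x, |g x - G| ∂ν) + (∫ x, |f x - g x| ∂ν) + |G - F| * m := by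
      have i4 : Integrable (fun x => |g x - G| + |f x - g x|) ν := i2.add i3
      rw [integral_add i4 (integrable_const _), integral_add i2 i3, integral_const,
        smul_eq_mul]
      ring
    linarith
  rw [average_eq, average_eq, average_eq, smul_eq_mul, smul_eq_mul, smul_eq_mul, ← hmdef]
  have e3 : ∫ x, |f x - F| ∂ν ≤ (∫ x, |g x - G| ∂ν) + 2 * ∫ x, |f x - g x| ∂ν := by linarith
  calc m⁻¹ * ∫ x, |f x - F| ∂ν ≤ m⁻¹ * ((∫ x, |g x - G| ∂ν) + 2 * ∫ x, |f x - g x| ∂ν) :=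
        mul_le_mul_of_nonneg_left e3 (by positivity)
    _ = _ := by ring

/-- `L^p` convergence on a finite measure space gives convergence of the averages -/
theorem tendsto_avg_abs {α : Type} [MeasurableSpace α] {ν : Measure α} [IsFiniteMeasure ν]
    {p : ℝ} (hp : 1 < p) {G : ℕ → α → ℝ} {g : α → ℝ}
    (hG : ∀ i, MemLp (G i) (ENNReal.ofReal p) ν) (hg : MemLp g (ENNReal.ofReal p) ν)
    (hl : Tendsto (fun i => eLpNorm (fun x => G i x - g x) (ENNReal.ofReal p) ν) atTop (𝓝 0)) :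
    Tendsto (fun i => ⨍ x, |g x - G i x| ∂ν) atTop (𝓝 0) := by
  have h1 : Tendsto (fun i => eLpNorm (fun x => G i x - g x) 1 ν) atTop (𝓝 0) := by
    have hc : ν univ ^ (1 / (1 : ENNReal).toReal - 1 / (ENNReal.ofReal p).toReal) ≠ ⊤ := by
      refine ENNReal.rpow_ne_top_of_nonneg ?_ (measure_ne_top _ _)
      rw [toReal_ofReal' hp]
      simp only [ENNReal.toReal_one, div_one, one_div]
      have : p⁻¹ ≤ 1 := inv_le_one_of_one_le₀ hp.le
      linarith
    have h2 : Tendsto (fun i => eLpNorm (fun x => G i x - g x) (ENNReal.ofReal p) ν *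
        ν univ ^ (1 / (1 : ENNReal).toReal - 1 / (ENNReal.ofReal p).toReal)) atTop (𝓝 0) := by
      have := ENNReal.Tendsto.mul_const hl (Or.inr hc)
      rwa [zero_mul] at this
    refine tendsto_of_tendsto_of_tendsto_of_le_of_le tendsto_const_nhds h2 (fun _ => bot_le)
      fun i => ?_
    exact eLpNorm_le_eLpNorm_mul_rpow_measure_univ (one_le_ofReal hp) ((hG i).1.sub hg.1)
  have h3 : ∀ i, ∫ x, |g x - G i x| ∂ν = (eLpNorm (fun x => G i x - g x) 1 ν).toReal := by
    intro i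
    have hm : AEStronglyMeasurable (fun x => G i x - g x) ν := (hG i).1.sub hg.1
    rw [eLpNorm_one_eq_lintegral_enorm, ← integral_norm_eq_lintegral_enorm hm]
    refine integral_congr_ae (Eventually.of_forall fun x => ?_)
    show |g x - G i x| = ‖G i x - g x‖
    rw [Real.norm_eq_abs, abs_sub_comm]
  have h4 : Tendsto (fun i => ∫ x, |g x - G i x| ∂ν) atTop (𝓝 0) := by
    have := (ENNReal.tendsto_toReal ENNReal.zero_ne_top).comp h1
    rw [ENNReal.toReal_zero] at this
    exact this.congr fun i => (h3 i).symm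
  have h5 := h4.const_mul ((ν.real univ)⁻¹)
  rw [mul_zero] at h5
  refine h5.congr fun i => ?_
  rw [average_eq, smul_eq_mul]

theorem grad_eq_zero_of_one {n : ℕ} {η : E n → ℝ} {z : E n} {r : ℝ}
    (h : ∀ x ∈ ball z r, η x = 1) {x : E n} (hx : x ∈ ball z r) : ∇ η x = 0 := by
  rw [grad_eq]
  have h1 : η =ᶠ[𝓝 x] fun _ => (1:ℝ) := by
    filter_upwards [isOpen_ball.mem_nhds hx] with y hy
    exact h y hy
  rw [h1.fderiv_eq]
  simp

theorem measure_ball_ne_top' {n : ℕ} {μ : Measure (E n)} (hl : IsLocallyFiniteMeasure μ)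
    (z : E n) (r : ℝ) : μ (ball z r) ≠ ⊤ := by
  have := hl
  exact measure_ball_lt_top.ne

/-- a slightly bigger ball -/
theorem bigger_ball {n : ℕ} {D : Set (E n)} (hD : IsOpen D) {z : E n} {r : ℝ} (hr : 0 ≤ r)
    (h : closedBall z r ⊆ D) : ∃ t, r < t ∧ closedBall z t ⊆ D := by
  obtain ⟨δ, hδ, h1⟩ := (isCompact_closedBall z r).exists_cthickening_subset_open hD h
  refine ⟨r + δ, by linarith, ?_⟩
  rw [cthickening_closedBall hδ.le hr, add_comm δ r] at h1
  exact h1

/-- Module POIX -/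
theorem poix (hC : ChainStatement) (hK : CutStatement) : PoixStatement := by
  intro n p μ hg
  obtain ⟨C, hC0, hpoi⟩ := hg.poi
  refine ⟨C, hC0, ?_⟩
  intro D u v c d Θ z r hD hs hu hΘ hr hB
  have hp := hg.hp
  have := hg.lf
  obtain ⟨Cc, -, hcut⟩ := hK n
  obtain ⟨t, hrt, ht⟩ := bigger_ball hD hr.le hB
  obtain ⟨η, hη1, hη2, hη3, hη4, -⟩ := hcut z r t hr hrt
  have hηD : Test D η := ⟨hη1.1, hη1.2.1, hη4.trans ht⟩
  obtain ⟨m1, m2, ψ, hψ, l1, l2⟩ := hC n μ p D u v c d Θ η hp hg.lf hD hs hu hΘ hηD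
  set B := ball z r with hBdef
  have hfin : μ B ≠ ⊤ := measure_ball_ne_top' hg.lf z r
  have : IsFiniteMeasure (μ.restrict B) := ⟨by
    rw [Measure.restrict_apply_univ]; exact hfin.lt_top⟩
  have hone : ∀ x ∈ B, η x = 1 := fun x hx => hη3 x (ball_subset_closedBall hx)
  have hgz : ∀ x ∈ B, ∇ η x = 0 := fun x hx => grad_eq_zero_of_one hone hx
  have ae1 : (fun x => η x * Θ (u x)) =ᵐ[μ.restrict B] fun x => Θ (u x) := by
    refine (ae_restrict_iff' measurableSet_ball).2 (Eventually.of_forall fun x hx => ?_)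
    show η x * Θ (u x) = Θ (u x)
    rw [hone x hx, one_mul]
  have ae2 : (fun x => Θ (u x) • ∇ η x + (η x * deriv Θ (u x)) • v x) =ᵐ[μ.restrict B]
      fun x => deriv Θ (u x) • v x := by
    refine (ae_restrict_iff' measurableSet_ball).2 (Eventually.of_forall fun x hx => ?_)
    show Θ (u x) • ∇ η x + (η x * deriv Θ (u x)) • v x = deriv Θ (u x) • v x
    rw [hone x hx, hgz x hx, smul_zero, zero_add, one_mul]
  have hle : μ.restrict B ≤ μ := Measure.restrict_le_self
  have M1 : MemLp (fun x => Θ (u x)) (ENNReal.ofReal p) (μ.restrict B) :=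
    (memLp_congr_ae ae1).1 (m1.mono_measure hle)
  have M2 : MemLp (fun x => deriv Θ (u x) • v x) (ENNReal.ofReal p) (μ.restrict B) :=
    (memLp_congr_ae ae2).1 (m2.mono_measure hle)
  have N1 : ∀ i, MemLp (ψ i) (ENNReal.ofReal p) (μ.restrict B) := fun i =>
    ((hψ i).memLp (μ := μ) _).mono_measure hle
  have N2 : ∀ i, MemLp (fun x => ∇ (ψ i) x) (ENNReal.ofReal p) (μ.restrict B) := fun i =>
    ((hψ i).memLp_grad (μ := μ) _).mono_measure hle
  have L1 : Tendsto (fun i => eLpNorm (fun x => ψ i x - Θ (u x)) (ENNReal.ofReal p)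
      (μ.restrict B)) atTop (𝓝 0) := by
    refine tendsto_of_tendsto_of_tendsto_of_le_of_le tendsto_const_nhds l1 (fun _ => bot_le)
      fun i => ?_
    have e : eLpNorm (fun x => ψ i x - Θ (u x)) (ENNReal.ofReal p) (μ.restrict B)
        = eLpNorm (fun x => ψ i x - η x * Θ (u x)) (ENNReal.ofReal p) (μ.restrict B) := by
      refine eLpNorm_congr_ae ?_
      filter_upwards [ae1] with x hx
      rw [hx]
    rw [e]
    exact eLpNorm_mono_measure _ hle
  have L2 : Tendsto (fun i => eLpNorm (fun x => ∇ (ψ i) x - deriv Θ (u x) • v x)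
      (ENNReal.ofReal p) (μ.restrict B)) atTop (𝓝 0) := by
    refine tendsto_of_tendsto_of_tendsto_of_le_of_le tendsto_const_nhds l2 (fun _ => bot_le)
      fun i => ?_
    have e : eLpNorm (fun x => ∇ (ψ i) x - deriv Θ (u x) • v x) (ENNReal.ofReal p)
        (μ.restrict B) = eLpNorm (fun x => ∇ (ψ i) x -
          (Θ (u x) • ∇ η x + (η x * deriv Θ (u x)) • v x)) (ENNReal.ofReal p)
          (μ.restrict B) := by
      refine eLpNorm_congr_ae ?_
      filter_upwards [ae2] with x hx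
      rw [hx]
    rw [e]
    exact eLpNorm_mono_measure _ hle
  have hP1 : (1 : ENNReal) ≤ ENNReal.ofReal p := one_le_ofReal hp
  -- the inequality for `ψ i`
  have hi : ∀ i, ⨍ x in B, |Θ (u x) - ⨍ y in B, Θ (u y) ∂μ| ∂μ ≤
      C * r * (⨍ y in B, ‖∇ (ψ i) y‖ ^ p ∂μ) ^ (1 / p) + 2 * ⨍ x in B, |Θ (u x) - ψ i x| ∂μ := by
    intro i
    have h1 := avg_osc_le (M1.integrable hP1) ((N1 i).integrable hP1)
    have h2 := hpoi z r hr (ψ i) (hψ i).1
    linarith
  have T1 := (tendsto_avg_abs hp N1 M1 L1).const_mul 2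
  rw [mul_zero] at T1
  have T2 := (tendsto_int_pow hp N2 M2 L2).const_mul ((μ.restrict B).real univ)⁻¹
  have T3 : Tendsto (fun i => ⨍ y in B, ‖∇ (ψ i) y‖ ^ p ∂μ) atTop
      (𝓝 (⨍ y in B, ‖deriv Θ (u y) • v y‖ ^ p ∂μ)) := by
    rw [average_eq, smul_eq_mul]
    refine T2.congr fun i => ?_
    rw [average_eq, smul_eq_mul]
  have T4 := ((Real.continuous_rpow_const (q := 1 / p) (by positivity)).tendsto _).comp T3
  have T5 := (T4.const_mul (C * r)).add T1
  rw [add_zero] at T5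
  have fin := ge_of_tendsto' T5 hi
  refine fin.trans (le_of_eq ?_)
  congr 2
  refine congrArg _ ?_
  funext x
  rw [norm_smul, Real.norm_eq_abs]

end Pool.Agent.Lib.MP_abd978_an.H55
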